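import Pool.Agent.MWH.StmtsA

/-!
Block MWH, row LT2 (MP_23468a_al): the light letter of degree two (helper73).
-/

namespace Pool.Agent.MWH.H73

open Pool.Agent.Helper14_MV Pool.Agent.Helper2_MV Pool.Agent.MVO Pool.Agent.MWL Pool.Agent.MWS
  Pool.Agent.MWH

theorem lt2 (arr : MWL.ArrStmt) (ta2 : MWL.Ta2Stmt) : Lt2Stmt := by
  intro R hR k a u v h
  have hle : ∀ p ≤ k, a p ≤ 1 := by
    intro p hp
    by_cases h1 : p = u
    · rw [h1, h.au]
    · by_cases h2 : p = v
      · rw [h2, h.av]
      · rw [h.az p hp h1 h2]
        exact Nat.zero_le 1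
  have huk : u ≤ k := h.uv.le.trans h.vk
  have hne : u ≠ v := h.uv.ne
  have hdeg : deg k a = 2 := by
    have h1 : deg k a = ∑ j ∈ ({u, v} : Finset ℕ), a j := by
      unfold deg
      symm
      apply Finset.sum_subset
      · intro j hj
        simp only [Finset.mem_insert, Finset.mem_singleton] at hj
        simp only [Finset.mem_range]
        have hv := h.vk
        rcases hj with rfl | rfl <;> omega
      · intro j hj hj'
        simp only [Finset.mem_insert, Finset.mem_singleton, not_or] at hj'
        simp only [Finset.mem_range] at hj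
        exact h.az j (by omega) hj'.1 hj'.2
    rw [h1, Finset.sum_pair hne, h.au, h.av]
  have hdeg2 : 2 ≤ deg k a := hdeg.ge
  refine ⟨?_, ?_⟩
  · rintro ⟨j, hj, hab⟩
    have key := ta2 1 R hR k a j hj hle hdeg2
    rw [hdeg] at key
    obtain ⟨k1, k2, k3⟩ := key
    have h01 : a j = 0 ∨ a j = 1 := by
      have := hle j hj
      omega
    rcases h01 with h0 | h1
    · by_cases hq : ∃ q, j < q ∧ q ≤ k ∧ a q ≠ 0
      · exact ((k2 h0 hq).1 hab).1
      · have hq' : ∀ q, j < q → q ≤ k → a q = 0 := by
          intro q hq1 hq2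
          by_contra hc
          exact hq ⟨q, hq1, hq2, hc⟩
        exact ((k3 h0 hq').1 hab).1
    · exact ((k1 h1).1 hab).1
  · intro hJ
    have key := (ta2 1 R hR k a v h.vk hle hdeg2).1 h.av
    rw [hdeg] at key
    refine key.2 ⟨hJ, ?_⟩
    have hlb : lb a v = 1 := by
      unfold lb
      have h1 : (Finset.range v).filter (fun j => a j ≠ 0) = {u} := by
        ext j
        simp only [Finset.mem_filter, Finset.mem_range, Finset.mem_singleton]
        constructor
        · rintro ⟨h1, h2⟩
          by_contra hc
          have hv := h.vk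
          exact h2 (h.az j (by omega) hc (by omega))
        · rintro rfl
          refine ⟨h.uv, ?_⟩
          rw [h.au]
          exact one_ne_zero
      rw [h1, Finset.card_singleton]
    rw [hlb]
    exact ((arr 1 R hR).2.2.2.2.1 2 le_rfl hJ).2

end Pool.Agent.MWH.H73
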